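import Pool.Agent.helper82.T6.SpecL

/-!
# T6, block L, module P7 (MP_16912e_nt)
-/

set_option autoImplicit false

namespace Pool.Agent.T6

open Finset Pool.Agent.helper3.FT

/-- harmonic sums -/
theorem P7_harm (j : ℕ) (hj : 1 ≤ j) (J : ℕ) (hJ : j ≤ J) :
    ∑ I ∈ Icc j J, (1 : ℝ) / I ≤ 1 + Real.log ((J : ℝ) / j) := by
  have hj0 : (0 : ℝ) < j := by exact_mod_cast hj
  induction J, hJ using Nat.le_induction with
  | base =>
    rw [Icc_self, sum_singleton, div_self hj0.ne', Real.log_one, add_zero, div_le_one hj0]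
    exact_mod_cast hj
  | succ J hJ ih =>
    have hJ0 : (0 : ℝ) < J := by exact_mod_cast (lt_of_lt_of_le hj hJ)
    rw [Finset.sum_Icc_succ_top (by omega : j ≤ J + 1)]
    have h1 : Real.log (((J + 1 : ℕ) : ℝ) / j) = Real.log ((J : ℝ) / j) + Real.log (((J : ℝ) + 1) / J) := by
      rw [← Real.log_mul (by positivity) (by positivity)]
      congr 1
      push_cast
      field_simp
    have h2 : (1 : ℝ) / ((J + 1 : ℕ) : ℝ) ≤ Real.log (((J : ℝ) + 1) / J) := by
      have h3 := Real.one_sub_inv_le_log_of_pos (show (0 : ℝ) < ((J : ℝ) + 1) / J by positivity)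
      have h4 : (1 : ℝ) - (((J : ℝ) + 1) / J)⁻¹ = 1 / ((J + 1 : ℕ) : ℝ) := by
        push_cast
        field_simp
        ring
      rw [h4] at h3
      exact h3
    rw [h1]
    linarith

theorem P7_disj (I I' : ℕ) (h : I ≠ I') : Disjoint (pb 0 I) (pb 0 I') := by
  rw [Finset.disjoint_left]
  intro p hp hp'
  simp only [pb, mem_filter, mem_Ico] at hp hp'
  exact h ((Nat.log_eq_of_pow_le_of_lt_pow hp.1.1 hp.1.2).symm.trans
    (Nat.log_eq_of_pow_le_of_lt_pow hp'.1.1 hp'.1.2))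

theorem P7 (hP1 : P1_stmt) : P7_stmt := by
  classical
  intro B
  refine ⟨Real.exp (4 * B), 4 * B, Real.one_le_exp (by positivity), ?_⟩
  intro j J E hj hjJ hE
  have hj0 : (0 : ℝ) < j := by exact_mod_cast hj
  have hJ0 : (0 : ℝ) < J := by exact_mod_cast (lt_of_lt_of_le hj hjJ)
  set P : Finset ℕ := (Icc j J).biUnion (fun I => pb 0 I) with hP
  have h1 : ∑ e ∈ E, (B : ℝ) ^ e.primeFactors.card / e ≤ ∑ S ∈ P.powerset, ∏ p ∈ S, ((B : ℝ) / p) := by
    have hinj : Set.InjOn (fun e : ℕ => e.primeFactors) (E : Set ℕ) := by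
      intro e he e' he' h
      have h' : e.primeFactors = e'.primeFactors := h
      rw [← Nat.prod_primeFactors_of_squarefree (hE e he).1,
        ← Nat.prod_primeFactors_of_squarefree (hE e' he').1, h']
    have h2 : ∑ e ∈ E, (B : ℝ) ^ e.primeFactors.card / e = ∑ e ∈ E, ∏ p ∈ e.primeFactors, ((B : ℝ) / p) := by
      refine sum_congr rfl fun e he => ?_
      rw [prod_div_distrib, prod_const]
      have h3 := Nat.prod_primeFactors_of_squarefree (hE e he).1
      have h4 : (∏ p ∈ e.primeFactors, (p : ℝ)) = e := by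
        rw [← Nat.cast_prod]
        exact congrArg Nat.cast h3
      rw [h4]
    rw [h2, ← sum_image (f := fun S : Finset ℕ => ∏ p ∈ S, ((B : ℝ) / p)) hinj]
    refine sum_le_sum_of_subset_of_nonneg ?_ fun S _ _ => prod_nonneg fun p _ => by positivity
    intro S hS
    rw [mem_image] at hS
    obtain ⟨e, he, rfl⟩ := hS
    rw [mem_powerset]
    intro p hp
    have hpp := Nat.prime_of_mem_primeFactors hp
    have h5 := (hE e he).2 p hpp (Nat.dvd_of_mem_primeFactors hp)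
    rw [hP, mem_biUnion]
    refine ⟨Nat.log 2 p, mem_Icc.2 h5, ?_⟩
    simp only [pb, mem_filter, mem_Ico]
    exact ⟨⟨Nat.pow_log_le_self 2 hpp.ne_zero, Nat.lt_pow_succ_log_self (by norm_num) p⟩, hpp, hpp.pos⟩
  have h2 : ∑ S ∈ P.powerset, ∏ p ∈ S, ((B : ℝ) / p) = ∏ p ∈ P, (1 + (B : ℝ) / p) := by
    rw [prod_one_add]
  have h3 : ∏ p ∈ P, (1 + (B : ℝ) / p) ≤ Real.exp (∑ p ∈ P, (B : ℝ) / p) := by
    rw [Real.exp_sum]
    refine prod_le_prod (fun p _ => by positivity) fun p _ => ?_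
    rw [add_comm]
    exact Real.add_one_le_exp _
  have h4 : ∑ p ∈ P, (B : ℝ) / p ≤ 4 * B * (1 + Real.log ((J : ℝ) / j)) := by
    rw [hP, sum_biUnion (fun I _ I' _ h => P7_disj I I' h)]
    calc ∑ I ∈ Icc j J, ∑ p ∈ pb 0 I, (B : ℝ) / p
        ≤ ∑ I ∈ Icc j J, 4 * B * ((1 : ℝ) / I) := by
          refine sum_le_sum fun I hI => ?_
          have h5 := hP1 0 I (le_trans hj (mem_Icc.1 hI).1)
          have h6 : ∑ p ∈ pb 0 I, (B : ℝ) / p = B * ∑ p ∈ pb 0 I, (1 : ℝ) / p := by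
            rw [mul_sum]
            exact sum_congr rfl fun p _ => by rw [mul_one_div]
          rw [h6]
          calc (B : ℝ) * ∑ p ∈ pb 0 I, (1 : ℝ) / p ≤ B * (4 / I) :=
                mul_le_mul_of_nonneg_left h5 (Nat.cast_nonneg B)
            _ = 4 * B * ((1 : ℝ) / I) := by ring
      _ = 4 * B * ∑ I ∈ Icc j J, (1 : ℝ) / I := by rw [mul_sum]
      _ ≤ 4 * B * (1 + Real.log ((J : ℝ) / j)) :=
          mul_le_mul_of_nonneg_left (P7_harm j hj J hjJ) (by positivity)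
  calc ∑ e ∈ E, (B : ℝ) ^ e.primeFactors.card / e
      ≤ Real.exp (∑ p ∈ P, (B : ℝ) / p) := (h1.trans_eq h2).trans h3
    _ ≤ Real.exp (4 * B * (1 + Real.log ((J : ℝ) / j))) := Real.exp_le_exp.2 h4
    _ = Real.exp (4 * B) * ((J : ℝ) / j) ^ (4 * B) := by
        rw [mul_add, mul_one, Real.exp_add]
        congr 1
        rw [show (4 : ℝ) * B * Real.log ((J : ℝ) / j) = ((4 * B : ℕ) : ℝ) * Real.log ((J : ℝ) / j) by
          push_cast; ring, Real.exp_nat_mul, Real.exp_log (by positivity)]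

end Pool.Agent.T6
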